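import Mathlib
import Pool.Agent.Lib.P0c8ca5G.SumOm

/-!
# Sa: the vectors of a coset for a block with one irreducible representation

PROOF of `mul_mem_Fs`. `a` is constant on the p-sections of `T = N ⊔ zpowers x` and `T`-invariant, and `e` is a central
idempotent of `kT`; `mul_mem_Rs`.
PROOF of `cj_Fs`. The only irreducible representation `ρ` of `N` in `e` is invariant by `x` and `y`; `Fs p N N e x` is
spanned by its vector (`av_span`), and `cj_av`.
-/

set_option autoImplicit false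

namespace Pool.Agent.Lib.P0c8ca5.Kn

open MonoidAlgebra Ps Bq Zz Gg

variable {p : ℕ} {k : Type*} [Field k] {A : Type*} [Group A]

section
variable [Fact p.Prime] [CharP k p] [IsAlgClosed k] [Fintype A] {N : Subgroup A} {x : A}
variable {e : MonoidAlgebra k A}

/-- the product with an invariant central idempotent -/
theorem mul_mem_Fs (hx : x ∈ Subgroup.normalizer (N : Set A)) (hxp : Prm p N x)
    (he : SuppIn N e) (hei : InvBy N e) (hee : e * e = e) (hex : cj x e = e)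
    {a : MonoidAlgebra k A} (ha : a ∈ Fs p N N 1 x) : e * a ∈ Fs p N N e x := by
  classical
  have hNT : N ≤ N ⊔ Subgroup.zpowers x := le_sup_left
  obtain ⟨h1, h2, h3, -⟩ := mem_Fs.1 ha
  have hN : ∀ y ∈ N, ∀ z, a.coeff (y * z * y⁻¹) = a.coeff z := by
    intro y hy
    apply h2 y hy
    have e : y * x * y⁻¹ * x⁻¹ = y * (x * y⁻¹ * x⁻¹) := by group
    rw [e]
    exact N.mul_mem hy (GqAux.nm_mem hx (N.inv_mem hy))
  have hzero : ∀ w, w * x⁻¹ ∉ N → a.coeff w = 0 := by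
    intro w hw
    by_contra h
    exact hw (h1 w h)
  have hX : x ∈ VecDAux.stA a := by
    intro w
    by_cases hw : w * x⁻¹ ∈ N
    · have e : x * w * x⁻¹ = (w * x⁻¹)⁻¹ * w * ((w * x⁻¹)⁻¹)⁻¹ := by group
      rw [e]
      exact hN _ (N.inv_mem hw) w
    · rw [hzero w hw, hzero]
      intro h
      apply hw
      have h4 := GqAux.nm_mem' hx h
      have e : x⁻¹ * (x * w * x⁻¹ * x⁻¹) * x = w * x⁻¹ := by group
      rwa [e] at h4
  have hT : N ⊔ Subgroup.zpowers x ≤ VecDAux.stA a :=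
    sup_le (fun y hy => hN y hy) (Subgroup.zpowers_le.2 hX)
  have hXe : x ∈ VecDAux.stA e := by
    intro w
    have h5 := congrArg (fun q => q.coeff (x * w * x⁻¹)) hex
    simp only [coeff_cj] at h5
    rw [← h5]
    congr 1
    group
  have hTe : N ⊔ Subgroup.zpowers x ≤ VecDAux.stA e :=
    sup_le (fun y hy => hei y hy) (Subgroup.zpowers_le.2 hXe)
  have haR : a ∈ Rs p (N ⊔ Subgroup.zpowers x) (1 : MonoidAlgebra k A) := by
    refine mem_Rs.2 ⟨?_, fun g hg w => hT hg w, ?_, one_mul a⟩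
    · intro w hw
      exact VecDAux.mem_T_of_cos (h1 w hw)
    · intro z hz
      by_cases h : z * x⁻¹ ∈ N
      · exact h3 _ h
      · have h4 : pr p z * z⁻¹ ∈ N :=
          pr_mem_cos (VecDAux.T_le hx) hz (VecDAux.prm_of_mem hx hxp hz)
            (by rw [mul_inv_cancel]; exact N.one_mem)
        rw [hzero _ h, hzero]
        intro h5
        apply h
        have e2 : z * x⁻¹ = (pr p z * z⁻¹)⁻¹ * (pr p z * x⁻¹) := by group
        rw [e2]
        exact N.mul_mem (N.inv_mem h4) h5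
  have heT : e ∈ fixAlg k (N ⊔ Subgroup.zpowers x) (N ⊔ Subgroup.zpowers x) :=
    mem_fixAlg.2 ⟨he.mono hNT, fun g hg w => hTe hg w⟩
  obtain ⟨-, g2, g3, g4⟩ := mem_Rs.1 (mul_mem_Rs heT hee haR)
  refine mem_Fs.2 ⟨?_, fun y hy _ z => g2 y (hNT hy) z,
    fun z hz => g3 z (VecDAux.mem_T_of_cos hz), g4⟩
  intro z hz
  rw [coeff_mul_fin] at hz
  obtain ⟨y, -, hy⟩ := Finset.exists_ne_zero_of_sum_ne_zero hz
  have h5 := he y (left_ne_zero_of_mul hy)
  have h6 := h1 _ (right_ne_zero_of_mul hy)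
  have h7 := N.mul_mem h5 h6
  have e3 : y * (y⁻¹ * z * x⁻¹) = z * x⁻¹ := by group
  rwa [e3] at h7

theorem iso_of_one (hl : Nat.card (IrX N e) = 1) {n m : ℕ} {ρ : Rp k N n} {σ : Rp k N m}
    (hρ : Irr' ρ) (hρe : act ρ e = 1) (hσ : Irr' σ) (hσe : act σ e = 1) : Iso σ ρ := by
  have := (Nat.card_eq_one_iff_unique.1 hl).1
  have h := Subsingleton.elim (⟦mkIrr σ hσ hσe⟧ : IrX N e) ⟦mkIrr ρ hρ hρe⟧
  exact mk_eq_mk.1 h

theorem exists_itw (hl : Nat.card (IrX N e) = 1) {n : ℕ} {ρ : Rp k N n} (hρ : Irr' ρ)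
    (hρe : act ρ e = 1) {y : A} (hy : y ∈ Subgroup.normalizer (N : Set A))
    (hey : cj y e = e) : ∃ X, Itw N ρ y X := by
  have h1 := SumOmAux.act_tw_cj' hy ρ e
  rw [hey, hρe] at h1
  exact (itw_iff hy).1 (iso_of_one hl hρ hρe (hρ.tw hy) h1)

/-- every vector is a multiple of the vector of the extension -/
theorem mem_span_av (hx : x ∈ Subgroup.normalizer (N : Set A)) (hxp : Prm p N x)
    (he : SuppIn N e) (hei : InvBy N e) (hee : e * e = e)
    (hl : Nat.card (IrX N e) = 1) {n : ℕ} {ρ : Rp k N n} (hρ : Irr' ρ) (hρe : act ρ e = 1)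
    {τ : Rp k (N ⊔ Subgroup.zpowers x) n} (hτ : IsExt N ρ x τ)
    {a : MonoidAlgebra k A} (ha : a ∈ Fs p N N e x) : ∃ s : k, a = s • av N x τ := by
  classical
  have hirr1 : ∀ c : IrX N (1 : MonoidAlgebra k A), Irr' (Quotient.out c).ρ :=
    fun c => irr_iff.1 (Quotient.out c).irr
  have hex1 : ∀ c : IrX N (1 : MonoidAlgebra k A),
      ∃ τ : Rp k (N ⊔ Subgroup.zpowers x) (Quotient.out c).n,
        (∃ X, Itw N (Quotient.out c).ρ x X) → IsExt N (Quotient.out c).ρ x τ := by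
    intro c
    by_cases h : ∃ X, Itw N (Quotient.out c).ρ x X
    · obtain ⟨t, ht⟩ := exists_ext (hirr1 c) hx h
      exact ⟨t, fun _ => ht⟩
    · exact ⟨1, fun h' => absurd h' h⟩
  choose τ1 hτ1 using hex1
  have h1 := av_span hx hxp he hei hee (fun c : IrX N (1 : MonoidAlgebra k A) =>
    (Quotient.out c).n) (fun c => (Quotient.out c).ρ) hirr1
    (fun i j hij h => hij (SumOmAux.eq_of_iso h))
    (fun m σ hσ => SumOmAux.exists_cls hσ (SumOmAux.act_one' σ)) τ1 hτ1 ha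
  have h2 : Submodule.span k {b | ∃ i : IrX N (1 : MonoidAlgebra k A),
      (∃ X, Itw N (Quotient.out i).ρ x X) ∧ act (Quotient.out i).ρ e = 1 ∧
        b = av N x (τ1 i)} ≤ Submodule.span k {av N x τ} := by
    refine Submodule.span_le.2 ?_
    rintro b ⟨i, hi1, hi2, rfl⟩
    have hc := iso_of_one hl hρ hρe (hirr1 i) hi2
    obtain ⟨s, hs0, hs⟩ := cj_av' (y := 1) (hirr1 i) hx (Subgroup.one_mem _)
      (by rw [one_mul, inv_one, mul_one, mul_inv_cancel]; exact N.one_mem)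
      (by rw [tw_one]; exact hc) (hτ1 i hi1) hτ
    rw [cj_one_left] at hs
    rw [hs]
    exact Submodule.smul_mem _ _ (Submodule.mem_span_singleton_self _)
  obtain ⟨s, hs⟩ := Submodule.mem_span_singleton.1 (h2 h1)
  exact ⟨s, hs.symm⟩

/-- one irreducible representation: the symbol is not zero and gives the action on the vectors -/
theorem cj_Fs (hx : x ∈ Subgroup.normalizer (N : Set A)) (hxp : Prm p N x)
    (he : SuppIn N e) (hei : InvBy N e) (hee : e * e = e) (hex : cj x e = e)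
    (hl : Nat.card (IrX N e) = 1) {n : ℕ} {ρ : Rp k N n} (hρ : Irr' ρ) (hρe : act ρ e = 1)
    {y : A} (hy : y ∈ Subgroup.normalizer (N : Set A)) (hey : cj y e = e)
    (hyx : y * x * y⁻¹ * x⁻¹ ∈ N) :
    om N ρ x y ≠ 0 ∧ ∀ a ∈ Fs p N N e x, cj y a = (om N ρ x y)⁻¹ • a := by
  have hX := exists_itw hl hρ hρe hx hex
  have hs : om N ρ x y ≠ 0 :=
    (om_ne_zero_iff hρ hx hy).2 ⟨hX, exists_itw hl hρ hρe hy hey, hyx⟩
  refine ⟨hs, fun a ha => ?_⟩
  obtain ⟨τ, hτ⟩ := exists_ext hρ hx hX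
  obtain ⟨s, rfl⟩ := mem_span_av hx hxp he hei hee hl hρ hρe hτ ha
  rw [cj_smul, cj_av hρ hx hy hτ hs, smul_comm]

/-- there is a nonzero vector -/
theorem exists_Fs (hx : x ∈ Subgroup.normalizer (N : Set A)) (hxp : Prm p N x)
    (he : SuppIn N e) (hex : cj x e = e)
    (hl : Nat.card (IrX N e) = 1) {n : ℕ} {ρ : Rp k N n} (hρ : Irr' ρ) (hρe : act ρ e = 1) :
    ∃ a ∈ Fs p N N e x, a ≠ 0 := by
  obtain ⟨τ, hτ⟩ := exists_ext hρ hx (exists_itw hl hρ hρe hx hex)
  refine ⟨av N x τ, av_mem hx hxp he hρe hτ, ?_⟩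
  have h1 := av_indep hx (ι := Unit) (fun _ => n) (fun _ => ρ) (fun _ => hρ)
    (fun i j hij => absurd (Subsingleton.elim i j) hij) (fun _ => τ) (fun _ => hτ)
  exact h1.ne_zero ()

end

end Pool.Agent.Lib.P0c8ca5.Kn
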