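import Mathlib
import Pool.Agent.Lib.P0c8ca5Q.Gq

/-!
# Sb: the relative trace of a function on a coset

`Tl G C a` is the sum of the conjugates `cj c a` over the cosets `c G` in `C`; `a` is `G`-invariant.

PROOF of `Tl_mem`. `G ≤ C`, `x` normalizes `G` and `C`. Write `F g q = a.coeff (c⁻¹ * g * c)` for the coset `q = c G` (independent of `c`: `coeff_mk`).
(1) support: `c⁻¹ g c ∈ G x` implies `g ∈ C x`. (2) `C`-invariance: `F (s g s⁻¹) q = F g (s⁻¹ q)`, `Fintype.sum_equiv`.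
(3) p-sections: let `z ∈ C x`, `z' = pr p z ∈ C x` (`pr_mem_cos`), `u = z * z'⁻¹ ∈ C`, a `p`-element commuting with `z` and `z'`. `zpowers u` acts on the cosets and `F z`, `F z'` are invariant, so both sums are the sums over the fixed cosets (`sum_eq_sum_fixed`), those with `c⁻¹ u c ∈ G`; for these `F z q = F z' q`: if `c⁻¹ z c ∈ G x` then `pr p (c⁻¹ z c) = c⁻¹ z' c` and `a` is constant on p-sections; if not, `c⁻¹ z' c ∉ G x` because `z' = u⁻¹ z`, and both are 0.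
-/

set_option autoImplicit false

namespace Pool.Agent.Lib.P0c8ca5.Kn

open MonoidAlgebra Ps Bq

variable {p : ℕ} {k : Type*} [Field k] {A : Type*} [Group A]

/-- the sum of the conjugates over the cosets of `G` in `C` -/
noncomputable def Tl (G C : Subgroup A) (a : MonoidAlgebra k A) : MonoidAlgebra k A :=
  ∑ᶠ q : ↥C ⧸ G.subgroupOf C, cj ((q.out : ↥C) : A) a

section
variable [Fintype A] {G C : Subgroup A} {a : MonoidAlgebra k A}

theorem coeff_Tl [Fintype (↥C ⧸ G.subgroupOf C)] (g : A) :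
    (Tl G C a).coeff g =
      ∑ q : ↥C ⧸ G.subgroupOf C, a.coeff (((q.out : ↥C) : A)⁻¹ * g * ((q.out : ↥C) : A)) := by
  unfold Tl
  rw [finsum_eq_sum_of_fintype, coeff_sum, Finsupp.finsetSum_apply]
  exact Finset.sum_congr rfl fun q _ => coeff_cj _ a g

theorem coeff_mk (ha : InvBy G a) (c : ↥C) (g : A) :
    a.coeff ((((QuotientGroup.mk c : ↥C ⧸ G.subgroupOf C).out : ↥C) : A)⁻¹ * g *
      (((QuotientGroup.mk c : ↥C ⧸ G.subgroupOf C).out : ↥C) : A)) =
      a.coeff ((c : A)⁻¹ * g * (c : A)) := by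
  obtain ⟨h, hh⟩ := QuotientGroup.mk_out_eq_mul (G.subgroupOf C) c
  rw [hh, Subgroup.coe_mul]
  have h1 : ((h : ↥C) : A) ∈ G := Subgroup.mem_subgroupOf.1 h.2
  rw [← ha _ (G.inv_mem h1) ((c : A)⁻¹ * g * (c : A))]
  congr 1
  group

/-- only the cosets fixed by a p-subgroup commuting with `g` matter -/
theorem coeff_Tl_fix [Fact p.Prime] [CharP k p] [Fintype (↥C ⧸ G.subgroupOf C)] (ha : InvBy G a)
    {S : Subgroup A} (hSC : S ≤ C) (hS : IsPGroup p S) {g : A} (hg : ∀ s ∈ S, s * g = g * s)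
    (Y : Finset (↥C ⧸ G.subgroupOf C))
    (hY : ∀ q, q ∈ Y ↔ ∀ s ∈ S, ((q.out : ↥C) : A)⁻¹ * s * ((q.out : ↥C) : A) ∈ G) :
    (Tl G C a).coeff g =
      ∑ q ∈ Y, a.coeff (((q.out : ↥C) : A)⁻¹ * g * ((q.out : ↥C) : A)) := by
  rw [coeff_Tl]
  have hsm : ∀ (s : ↥S) (q : ↥C ⧸ G.subgroupOf C),
      ((MulAction.toPermHom ↥C (↥C ⧸ G.subgroupOf C)).comp (Subgroup.inclusion hSC)) s q =
        (QuotientGroup.mk (Subgroup.inclusion hSC s * q.out) : ↥C ⧸ G.subgroupOf C) := by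
    intro s q
    conv_lhs => rw [← QuotientGroup.out_eq' q]
    rfl
  refine sum_eq_sum_fixed (p := p) hS
    ((MulAction.toPermHom ↥C (↥C ⧸ G.subgroupOf C)).comp (Subgroup.inclusion hSC))
    (fun q => a.coeff (((q.out : ↥C) : A)⁻¹ * g * ((q.out : ↥C) : A))) ?_ Y ?_
  · intro s q
    rw [hsm s q, coeff_mk ha]
    congr 1
    rw [Subgroup.coe_mul, Subgroup.coe_inclusion]
    have h1 := hg (s : A) s.2
    calc ((s : A) * ((q.out : ↥C) : A))⁻¹ * g * ((s : A) * ((q.out : ↥C) : A))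
        = ((q.out : ↥C) : A)⁻¹ * (s : A)⁻¹ * (g * (s : A)) * ((q.out : ↥C) : A) := by group
      _ = ((q.out : ↥C) : A)⁻¹ * (s : A)⁻¹ * ((s : A) * g) * ((q.out : ↥C) : A) := by rw [h1]
      _ = ((q.out : ↥C) : A)⁻¹ * g * ((q.out : ↥C) : A) := by group
  · intro q
    rw [hY]
    constructor
    · intro h s
      rw [hsm s q]
      conv_rhs => rw [← QuotientGroup.out_eq' q]
      rw [QuotientGroup.eq, Subgroup.mem_subgroupOf]
      have h1 := G.inv_mem (h (s : A) s.2)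
      have h2 : ((((Subgroup.inclusion hSC s * q.out)⁻¹ * q.out : ↥C)) : A) =
          (((q.out : ↥C) : A)⁻¹ * (s : A) * ((q.out : ↥C) : A))⁻¹ := by
        rw [Subgroup.coe_mul, Subgroup.coe_inv, Subgroup.coe_mul, Subgroup.coe_inclusion]
        group
      rw [h2]
      exact h1
    · intro h s hs
      have h1 := h ⟨s, hs⟩
      rw [hsm] at h1
      conv_rhs at h1 => rw [← QuotientGroup.out_eq' q]
      rw [QuotientGroup.eq, Subgroup.mem_subgroupOf] at h1
      have h2 : ((((Subgroup.inclusion hSC ⟨s, hs⟩ * q.out)⁻¹ * q.out : ↥C)) : A) =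
          (((q.out : ↥C) : A)⁻¹ * s * ((q.out : ↥C) : A))⁻¹ := by
        rw [Subgroup.coe_mul, Subgroup.coe_inv, Subgroup.coe_mul, Subgroup.coe_inclusion]
        group
      rw [h2] at h1
      simpa using G.inv_mem h1

theorem Tl_mem [Fact p.Prime] [CharP k p] {x : A} (hGC : G ≤ C)
    (hxG : x ∈ Subgroup.normalizer (G : Set A)) (hxC : x ∈ Subgroup.normalizer (C : Set A))
    (hxp : Prm p G x) (ha : a ∈ Fs p G G 1 x) : Tl G C a ∈ Fs p C C 1 x := by
  classical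
  have : Fintype (↥C ⧸ G.subgroupOf C) := Fintype.ofFinite _
  obtain ⟨h1, h2, h3, -⟩ := mem_Fs.1 ha
  have hinv : InvBy G a := by
    intro y hy z
    refine h2 y hy ?_ z
    have h4 := (Subgroup.mem_normalizer_iff.1 hxG y⁻¹).1 (G.inv_mem hy)
    have h5 : y * x * y⁻¹ * x⁻¹ = y * (x * y⁻¹ * x⁻¹) := by group
    rw [h5]
    exact G.mul_mem hy h4
  refine mem_Fs.2 ⟨?_, ?_, ?_, one_mul _⟩
  · -- support
    intro z hz
    rw [coeff_Tl] at hz
    obtain ⟨q, -, hq⟩ := Finset.exists_ne_zero_of_sum_ne_zero hz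
    have h4 := hGC (h1 _ hq)
    have hc : ((q.out : ↥C) : A) ∈ C := (q.out : ↥C).2
    have h5 := (Subgroup.mem_normalizer_iff.1 hxC (((q.out : ↥C) : A)⁻¹)).1 (C.inv_mem hc)
    have h6 : z * x⁻¹ = ((q.out : ↥C) : A) *
        (((q.out : ↥C) : A)⁻¹ * z * ((q.out : ↥C) : A) * x⁻¹) *
        (x * ((q.out : ↥C) : A)⁻¹ * x⁻¹) := by group
    rw [h6]
    exact C.mul_mem (C.mul_mem hc h4) h5
  · -- invariance
    intro y hy _ z
    rw [coeff_Tl, coeff_Tl]
    have h4 : ∀ q : ↥C ⧸ G.subgroupOf C,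
        a.coeff ((((MulAction.toPerm (⟨y, hy⟩ : ↥C)⁻¹ q).out : ↥C) : A)⁻¹ * z *
          ((((MulAction.toPerm (⟨y, hy⟩ : ↥C)⁻¹ q).out : ↥C)) : A)) =
        a.coeff (((q.out : ↥C) : A)⁻¹ * (y * z * y⁻¹) * ((q.out : ↥C) : A)) := by
      intro q
      have h5 : MulAction.toPerm (⟨y, hy⟩ : ↥C)⁻¹ q =
          (QuotientGroup.mk ((⟨y, hy⟩ : ↥C)⁻¹ * q.out) : ↥C ⧸ G.subgroupOf C) := by
        conv_lhs => rw [← QuotientGroup.out_eq' q]
        rfl
      rw [h5, coeff_mk hinv]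
      congr 1
      rw [Subgroup.coe_mul, Subgroup.coe_inv]
      group
    rw [← Equiv.sum_comp (MulAction.toPerm (⟨y, hy⟩ : ↥C)⁻¹) (fun q : ↥C ⧸ G.subgroupOf C =>
      a.coeff (((q.out : ↥C) : A)⁻¹ * z * ((q.out : ↥C) : A)))]
    exact Finset.sum_congr rfl fun q _ => (h4 q).symm
  · -- sections
    intro z hz
    obtain ⟨m, hm, hxm⟩ := hxp
    have h4 : pr p z * x⁻¹ ∈ C := pr_mem_cos (K := Subgroup.normalizer (C : Set A)) le_rfl hxC
      ⟨m, hm, hGC hxm⟩ hz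
    obtain ⟨u, hu⟩ : ∃ u : A, u = z * (pr p z)⁻¹ := ⟨_, rfl⟩
    have huC : u ∈ C := by
      have h5 := C.mul_mem hz (C.inv_mem h4)
      have h6 : z * x⁻¹ * (pr p z * x⁻¹)⁻¹ = u := by
        rw [hu]
        group
      rwa [h6] at h5
    obtain ⟨r, hr⟩ := exists_pow_mul_inv_pr (p := p) z
    rw [← hu] at hr
    have hS : IsPGroup p (Subgroup.zpowers u) := by
      rintro ⟨g, hg⟩
      obtain ⟨j, hj⟩ := Subgroup.mem_zpowers_iff.1 hg
      refine ⟨r, Subtype.ext ?_⟩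
      change g ^ p ^ r = 1
      rw [← hj, ← zpow_natCast, ← zpow_mul, mul_comm, zpow_mul, zpow_natCast, hr, one_zpow]
    have hzz : Commute z (pr p z) := (Commute.refl z).pow_right _
    have huz : Commute u z := by
      rw [hu]
      exact (Commute.refl z).mul_left hzz.symm.inv_left
    have huz' : Commute u (pr p z) := by
      rw [hu]
      exact hzz.mul_left (Commute.refl _).inv_left
    have hcom : ∀ w, Commute u w → ∀ s ∈ Subgroup.zpowers u, s * w = w * s := by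
      intro w hw s hs
      obtain ⟨j, hj⟩ := Subgroup.mem_zpowers_iff.1 hs
      rw [← hj]
      exact (hw.zpow_left j).eq
    have hSC : Subgroup.zpowers u ≤ C := by rwa [Subgroup.zpowers_le]
    let Y : Finset (↥C ⧸ G.subgroupOf C) := Finset.univ.filter fun q =>
      ∀ s ∈ Subgroup.zpowers u, ((q.out : ↥C) : A)⁻¹ * s * ((q.out : ↥C) : A) ∈ G
    have hY : ∀ q, q ∈ Y ↔ ∀ s ∈ Subgroup.zpowers u,
        ((q.out : ↥C) : A)⁻¹ * s * ((q.out : ↥C) : A) ∈ G := by
      intro q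
      rw [Finset.mem_filter]
      exact ⟨fun h => h.2, fun h => ⟨Finset.mem_univ _, h⟩⟩
    rw [coeff_Tl_fix (p := p) hinv hSC hS (hcom _ huz') Y hY,
      coeff_Tl_fix (p := p) hinv hSC hS (hcom _ huz) Y hY]
    refine Finset.sum_congr rfl fun q hq => ?_
    have hq1 := (hY q).1 hq u (Subgroup.mem_zpowers u)
    generalize ((q.out : ↥C) : A) = c at hq1
    have h5 : c⁻¹ * pr p z * c = pr p (c⁻¹ * z * c) := by
      have h6 := pr_conj (p := p) c⁻¹ z
      rw [inv_inv] at h6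
      exact h6.symm
    by_cases hG : c⁻¹ * z * c * x⁻¹ ∈ G
    · rw [h5]
      exact h3 _ hG
    · have e1 : a.coeff (c⁻¹ * z * c) = 0 := by
        by_contra hne
        exact hG (h1 _ hne)
      have e2 : a.coeff (c⁻¹ * pr p z * c) = 0 := by
        by_contra hne
        apply hG
        have h6 := G.mul_mem hq1 (h1 _ hne)
        have h7 : c⁻¹ * u * c * (c⁻¹ * pr p z * c * x⁻¹) = c⁻¹ * z * c * x⁻¹ := by
          rw [hu]
          group
        rwa [h7] at h6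
      rw [e1, e2]

end

end Pool.Agent.Lib.P0c8ca5.Kn
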