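import Mathlib
import Pool.Agent.Lib.P0c8ca5Kn.Sb
import Pool.Agent.Lib.P0c8ca5Ex.Defs

/-!
# Sc: the relative trace is a right inverse of the restriction

`P` is a p-subgroup of `C`, `G = C_C(P)`, `x` commutes with `P`. `retr`: `β' * resS C(P) (Tl G C a) = a` for `a ∈ Fs p G G β' x`.

PROOF. Let `g ∈ C(P)`. `coeff_Tl_fix` with `S = P`: `(Tl a)(g)` is the sum over the cosets `c G` with `c⁻¹ P c ≤ G` of `a (c⁻¹ g c)`. If such a term is not 0, then `c⁻¹ P c` and `P` are in `G` (`P` is central in `G`) and commute with `c⁻¹ g c ∈ G x`; so `S = c⁻¹ P c ⊔ P` is a p-subgroup of `G` commuting with `c⁻¹ g c` (`Subgroup.closure` or `sup` of commuting p-groups; `P ⊴ G`), and `hF` gives `c⁻¹ P c ≤ P`, so `c` normalizes `P`. Conversely the cosets of the elements `c` normalizing `P` occur. So `resS C(P) (Tl a) = ∑ cj c a` over these cosets (both sides vanish outside `C(P)`: `cj c a` is supported in `c G x c⁻¹` and `x`, `G` commute with `P`, `c` normalizes `P`). For them `β' * cj c a = cj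 c (cj c⁻¹ β' * a) = cj c (cj c⁻¹ β' * β' * a)`, and `cj c⁻¹ β'` is a block of `G` (`c` normalizes `G`), so this is `0` unless `cj c⁻¹ β' = β'`, that is `cj c β' = β'`, `c ∈ G` by `hB`; the coset `G` gives `β' * a = a`.
-/

set_option autoImplicit false

namespace Pool.Agent.Lib.P0c8ca5.Kn

open MonoidAlgebra Ps Bq Ex

variable {p : ℕ} {k : Type*} [Field k] {A : Type*} [Group A]

theorem retr [Fact p.Prime] [CharP k p] [IsAlgClosed k] [Fintype A] {P G C : Subgroup A}
    (hP : IsPGroup p P) (hPG : P ≤ G) (hG : G = C ⊓ CD P) {x : A} (hx : ∀ u ∈ P, x * u = u * x)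
    (hxG : x ∈ Subgroup.normalizer (G : Set A))
    {β' a : MonoidAlgebra k A} (hβ : IsBlock G β') (ha : a ∈ Fs p G G β' x)
    (hF : ∀ g : A, g * x⁻¹ ∈ G → a.coeff g ≠ 0 → ∀ S : Subgroup A, IsPGroup p S → S ≤ G →
      P ≤ S → (∀ s ∈ S, s * g = g * s) → S ≤ P)
    (hB : ∀ n ∈ C, n ∈ Subgroup.normalizer (P : Set A) → cj n β' = β' → n ∈ G) :
    β' * resS (CD P : Set A) (Tl G C a) = a := by
  classical
  have : Fintype (↥C ⧸ G.subgroupOf C) := Fintype.ofFinite _
  obtain ⟨h1, h2, -, h4⟩ := mem_Fs.1 ha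
  have hGC : G ≤ C := by rw [hG]; exact inf_le_left
  have hGP : G ≤ CD P := by rw [hG]; exact inf_le_right
  have hxP : x ∈ CD P := Subgroup.mem_centralizer_iff.2 fun u hu => (hx u hu).symm
  have hPC : P ≤ C := hPG.trans hGC
  have hinv : InvBy G a := by
    intro y hy z
    refine h2 y hy ?_ z
    have h5 := (Subgroup.mem_normalizer_iff.1 hxG y⁻¹).1 (G.inv_mem hy)
    have h6 : y * x * y⁻¹ * x⁻¹ = y * (x * y⁻¹ * x⁻¹) := by group
    rw [h6]
    exact G.mul_mem hy h5
  -- a nonzero value is in `C(P)`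
  have hsup : ∀ g, a.coeff g ≠ 0 → g ∈ CD P := by
    intro g hg
    have h5 := (CD P).mul_mem (hGP (h1 g hg)) hxP
    rwa [inv_mul_cancel_right] at h5
  have hnC : ∀ c, c ∈ Subgroup.normalizer (P : Set A) → ∀ g, g ∈ CD P ↔ c⁻¹ * g * c ∈ CD P := by
    intro c hc g
    have h5 : c⁻¹ ∈ Subgroup.normalizer ((CD P : Subgroup A) : Set A) :=
      mem_normalizer_centralizer (Subgroup.inv_mem _ hc)
    have h6 := Subgroup.mem_normalizer_iff.1 h5 g
    rwa [inv_inv] at h6
  set Y : Finset (↥C ⧸ G.subgroupOf C) := Finset.univ.filter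
    (fun q => ∀ s ∈ P, ((q.out : ↥C) : A)⁻¹ * s * ((q.out : ↥C) : A) ∈ G) with hY
  set Y' : Finset (↥C ⧸ G.subgroupOf C) := Finset.univ.filter
    (fun q => ((q.out : ↥C) : A) ∈ Subgroup.normalizer (P : Set A)) with hY'
  have hYY : Y' ⊆ Y := by
    intro q hq
    rw [hY', Finset.mem_filter] at hq
    rw [hY, Finset.mem_filter]
    refine ⟨Finset.mem_univ _, fun s hs => hPG ?_⟩
    have h5 := (Subgroup.mem_normalizer_iff.1 (Subgroup.inv_mem _ hq.2) s).1 hs
    rwa [inv_inv] at h5
  -- the restriction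
  have hres : resS (CD P : Set A) (Tl G C a) = ∑ q ∈ Y', cj ((q.out : ↥C) : A) a := by
    ext g
    rw [coeff_sum, Finsupp.finsetSum_apply]
    by_cases hg : g ∈ CD P
    · rw [coeff_resS_of_mem _ (show g ∈ (CD P : Set A) from hg), coeff_Tl_fix hinv hPC hP
        (fun s hs => Subgroup.mem_centralizer_iff.1 hg s hs) Y (fun q => by
          rw [hY, Finset.mem_filter]
          exact ⟨fun h => h.2, fun h => ⟨Finset.mem_univ _, h⟩⟩)]
      symm
      rw [Finset.sum_congr rfl fun q _ => coeff_cj _ a g]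
      refine Finset.sum_subset hYY fun q hq hq' => ?_
      by_contra h5
      apply hq'
      rw [hY', Finset.mem_filter]
      refine ⟨Finset.mem_univ _, ?_⟩
      set c : A := ((q.out : ↥C) : A) with hc
      have hcY := (Finset.mem_filter.1 hq).2
      set g' := c⁻¹ * g * c with hg'
      have hg'G : g' * x⁻¹ ∈ G := h1 g' h5
      have hle : cg c⁻¹ P ≤ G := by
        intro s hs
        have h6 := mem_cg.1 hs
        rw [inv_inv] at h6
        have h7 := hcY _ h6
        have e : c⁻¹ * (c * s * c⁻¹) * c = s := by group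
        rwa [e] at h7
      have hS : IsPGroup p ↥(P ⊔ cg c⁻¹ P) := by
        refine IsPGroup.to_sup_of_normal_left' hP (isPGroup_cg hP) ?_
        exact hle.trans (hGP.trans (Subgroup.centralizer_le_normalizer _))
      have hcomm : P ⊔ cg c⁻¹ P ≤ Subgroup.centralizer ({g'} : Set A) := by
        refine sup_le ?_ ?_
        · intro s hs
          rw [Subgroup.mem_centralizer_singleton_iff]
          have h6 : g' ∈ CD P := hsup g' h5
          exact Subgroup.mem_centralizer_iff.1 h6 s hs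
        · intro s hs
          rw [Subgroup.mem_centralizer_singleton_iff]
          have h6 := mem_cg.1 hs
          rw [inv_inv] at h6
          have h7 := Subgroup.mem_centralizer_iff.1 hg _ h6
          calc s * g' = c⁻¹ * ((c * s * c⁻¹) * g) * c := by rw [hg']; group
            _ = c⁻¹ * (g * (c * s * c⁻¹)) * c := by rw [h7]
            _ = g' * s := by rw [hg']; group
      have h6 := hF g' hg'G h5 (P ⊔ cg c⁻¹ P) hS (sup_le hPG hle) le_sup_left
        (fun s hs => Subgroup.mem_centralizer_singleton_iff.1 (hcomm hs))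
      have h7 : cg c⁻¹ P ≤ P := le_sup_right.trans h6
      have h8 : cg c⁻¹ P = P := Subgroup.eq_of_le_of_card_ge h7 (card_cg _ P).ge
      have h9 := Subgroup.inv_mem _ (cg_eq_self_iff.1 h8)
      rwa [inv_inv] at h9
    · rw [coeff_resS_of_notMem _ (show g ∉ (CD P : Set A) from hg)]
      symm
      refine Finset.sum_eq_zero fun q hq => ?_
      rw [coeff_cj]
      by_contra h5
      exact hg ((hnC _ (Finset.mem_filter.1 hq).2 g).2 (hsup _ h5))
  rw [hres, Finset.mul_sum]
  -- only the trivial coset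
  set q₀ : ↥C ⧸ G.subgroupOf C := QuotientGroup.mk 1 with hq₀
  have hout : ((q₀.out : ↥C) : A) ∈ G := by
    obtain ⟨h, hh⟩ := QuotientGroup.mk_out_eq_mul (G.subgroupOf C) 1
    rw [hq₀, hh, one_mul]
    exact Subgroup.mem_subgroupOf.1 h.2
  have hq₀Y : q₀ ∈ Y' := by
    rw [hY', Finset.mem_filter]
    exact ⟨Finset.mem_univ _, Subgroup.centralizer_le_normalizer _ (hGP hout)⟩
  rw [Finset.sum_eq_single_of_mem q₀ hq₀Y]
  · rw [invBy_iff_cj.1 hinv _ hout, h4]
  · intro q hq hne
    set c : A := ((q.out : ↥C) : A) with hc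
    have hcN : c ∈ Subgroup.normalizer (P : Set A) := (Finset.mem_filter.1 hq).2
    have hcC : c ∈ C := (q.out : ↥C).2
    have hcG : cg c G = G := by
      ext g
      rw [mem_cg, hG, Subgroup.mem_inf, Subgroup.mem_inf, ← hnC c hcN g]
      have h5 : c⁻¹ * g * c ∈ C ↔ g ∈ C := by
        rw [C.mul_mem_cancel_right hcC, C.mul_mem_cancel_left (C.inv_mem hcC)]
      rw [h5]
    have hb : IsBlock G (cj c β') := by
      have h5 := isBlock_cg hβ c
      rwa [hcG] at h5
    have h6 : β' * cj c β' = 0 := by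
      rcases hβ.eq_or_mul_eq_zero hb with h7 | h7
      · exfalso
        apply hne
        have h8 := hB c hcC hcN h7.symm
        rw [← QuotientGroup.out_eq' q, hq₀, eq_comm, QuotientGroup.eq, inv_one, one_mul]
        exact Subgroup.mem_subgroupOf.2 h8
      · exact h7
    calc β' * cj c a = β' * cj c (β' * a) := by rw [h4]
      _ = β' * cj c β' * cj c a := by rw [cj_mul, mul_assoc]
      _ = 0 := by rw [h6, zero_mul]

end Pool.Agent.Lib.P0c8ca5.Kn
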