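import Mathlib
import Pool.Agent.Lib.P0c8ca5N.WSum
import Pool.Agent.Lib.P0c8ca5Ex.Defs

/-!
# Sd: a block of a local subgroup that is fixed

PROOF of `exists_fix`. `K = G ⊓ C(S)`. `resS C(S)` is multiplicative on `S`-invariant elements (`resS_mul`), so `a(g) = (β' * a)(g) = (r * a₁)(g)`, `r = resS C(S) β' ∈ Z(kK)` (supported in `G ⊓ C(S)`), `a₁ = resS C(S) a`, invariant by `K` (`K` normalizes `C(S)`). `1` is the sum of the blocks `c` of `K` (`WSumAux.sum_blocks`), so `(c * r * a₁)(g) ≠ 0` for some block `c`; then `c * r ≠ 0`, `c * r = c` (`IsBlock.mul_eq`). `a₁` commutes with `c ∈ kK` (`commute_of`), so `c * a₁ = c * a₁ * c`. With `(u * v)(1) = (v * u)(1)`: `(c a₁ c)(g) = (c a₁ c g⁻¹)(1) = (c a₁ g⁻¹ (cj g c))(1) = (cj g c * c * a₁ g⁻¹)(1)`. `g` normalizes `K` (it normalizes `G` and commutes with `S`), so `cj g c` is a block of `K`; if it were not `c`, the product would be 0.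
-/

set_option autoImplicit false

namespace Pool.Agent.Lib.P0c8ca5.Kn

open MonoidAlgebra Ex

variable {p : ℕ} {k : Type*} [Field k] {A : Type*} [Group A]

theorem coeff_one_swap [Fintype A] (u v : MonoidAlgebra k A) :
    (u * v).coeff 1 = (v * u).coeff 1 := by
  rw [coeff_mul_fin, coeff_mul_fin]
  refine Fintype.sum_equiv (Equiv.inv A) _ _ (fun y => ?_)
  rw [Equiv.inv_apply, mul_one, mul_one, inv_inv, mul_comm]

theorem coeff_mul_inv (w : MonoidAlgebra k A) (g : A) :
    (w * single g⁻¹ (1 : k)).coeff 1 = w.coeff g := by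
  rw [coeff_mul_single_apply, inv_inv, one_mul, mul_one]

theorem exists_fix [Fact p.Prime] [CharP k p] [IsAlgClosed k] [Fintype A] {G S : Subgroup A}
    (hS : IsPGroup p S) (hSG : S ≤ G) {β' a : MonoidAlgebra k A} (hβ : β' ∈ fixAlg k G G)
    (hββ : β' * β' = β') (haG : InvBy G a) (hβa : β' * a = a) {g : A}
    (hg : g ∈ Subgroup.normalizer (G : Set A)) (hgS : ∀ s ∈ S, s * g = g * s)
    (hag : a.coeff g ≠ 0) :
    ∃ c, IsBlock (G ⊓ CD S) c ∧ resS (CD S : Set A) β' * c = c ∧ cj g c = c := by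
  classical
  obtain ⟨hβs, hβi⟩ := mem_fixAlg.1 hβ
  have hKC : G ⊓ CD S ≤ Subgroup.normalizer (CD S : Set A) :=
    inf_le_right.trans Subgroup.le_normalizer
  have hri : InvBy (G ⊓ CD S) (resS (CD S : Set A) β') :=
    resS_invBy hKC (hβi.mono inf_le_left)
  have hai : InvBy (G ⊓ CD S) (resS (CD S : Set A) a) :=
    resS_invBy hKC (haG.mono inf_le_left)
  have hrs : SuppIn (G ⊓ CD S) (resS (CD S : Set A) β') := by
    intro z hz
    by_cases h : z ∈ (CD S : Set A)
    · rw [coeff_resS_of_mem _ h] at hz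
      exact ⟨hβs z hz, h⟩
    · exact absurd (coeff_resS_of_notMem _ h) hz
  have hr : resS (CD S : Set A) β' ∈ fixAlg k (G ⊓ CD S) (G ⊓ CD S) := mem_fixAlg.2 ⟨hrs, hri⟩
  have hrr : resS (CD S : Set A) β' * resS (CD S : Set A) β' = resS (CD S : Set A) β' := by
    rw [← resS_mul hS (hβi.mono hSG) (hβi.mono hSG), hββ]
  have hgC : g ∈ (CD S : Set A) := Subgroup.mem_centralizer_iff.2 hgS
  have h1 : (resS (CD S : Set A) β' * resS (CD S : Set A) a).coeff g ≠ 0 := by
    rw [← resS_mul hS (hβi.mono hSG) (haG.mono hSG), hβa, coeff_resS_of_mem _ hgC]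
    exact hag
  -- the blocks
  let B := (finite_isBlock (k := k) (G ⊓ CD S)).toFinset
  have hB : ∀ b, b ∈ B ↔ IsBlock (G ⊓ CD S) b ∧ b * 1 ≠ 0 := by
    intro b
    rw [mul_one]
    change b ∈ (finite_isBlock (k := k) (G ⊓ CD S)).toFinset ↔ _
    rw [Set.Finite.mem_toFinset]
    exact ⟨fun h => ⟨h, h.ne_zero⟩, fun h => h.1⟩
  have hsum : ∑ b ∈ B, b = 1 :=
    WSumAux.sum_blocks (fixAlg k (G ⊓ CD S) (G ⊓ CD S)).one_mem (one_mul 1) B hB
  obtain ⟨c, hcB, hc⟩ : ∃ c ∈ B,
      (c * (resS (CD S : Set A) β' * resS (CD S : Set A) a)).coeff g ≠ 0 := by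
    by_contra hcon
    push Not at hcon
    apply h1
    rw [← one_mul (resS (CD S : Set A) β' * resS (CD S : Set A) a), ← hsum, Finset.sum_mul,
      coeff_sum, Finsupp.finsetSum_apply]
    exact Finset.sum_eq_zero hcon
  have hcb : IsBlock (G ⊓ CD S) c := ((hB c).1 hcB).1
  have hcr : c * resS (CD S : Set A) β' = resS (CD S : Set A) β' * c :=
    commute_of hcb.suppIn hri
  rcases hcb.mul_eq hr hrr with h2 | h2
  · exfalso
    apply hc
    rw [← mul_assoc, hcr, h2, zero_mul]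
    rfl
  refine ⟨c, hcb, h2, ?_⟩
  have hca : c * resS (CD S : Set A) a = resS (CD S : Set A) a * c := commute_of hcb.suppIn hai
  rw [← mul_assoc, hcr, h2] at hc
  have h3 : c * resS (CD S : Set A) a = c * resS (CD S : Set A) a * c := by
    rw [mul_assoc, ← hca, ← mul_assoc, hcb.idem]
  have h4 : c * single g⁻¹ (1 : k) = single g⁻¹ 1 * cj g c := by
    rw [cj, ← mul_assoc, ← mul_assoc, single_mul_single, inv_mul_cancel, one_mul]
    rw [← MonoidAlgebra.one_def, one_mul]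
  have hgK : g ∈ Subgroup.normalizer ((G ⊓ CD S : Subgroup A) : Set A) := by
    rw [Subgroup.mem_normalizer_iff]
    intro z
    have h5 := Subgroup.mem_normalizer_iff.1 hg z
    have hgS' : g ∈ Subgroup.normalizer (CD S : Set A) := Subgroup.le_normalizer hgC
    have h6 := Subgroup.mem_normalizer_iff.1 hgS' z
    rw [Subgroup.mem_inf, Subgroup.mem_inf, h5, h6]
  have hgb : IsBlock (G ⊓ CD S) (cj g c) := by
    have h5 := isBlock_cg hcb g
    rwa [cg_eq_self_iff.2 hgK] at h5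
  rcases hgb.eq_or_mul_eq_zero hcb with h5 | h5
  · exact h5
  · exfalso
    apply hc
    rw [h3, ← coeff_mul_inv, mul_assoc, h4, ← mul_assoc, coeff_one_swap, mul_assoc, ← mul_assoc,
      h5, zero_mul]
    rfl

end Pool.Agent.Lib.P0c8ca5.Kn
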