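import Mathlib
import Pool.Agent.Lib.P0c8ca5Kq.Cd

/-!
# Se: fusion

`Q ≤ D` with `St D f ∩ C(Q) ≤ C(D)` (`hreg`), `x ∈ St D f` normalizes `Q`, `P = C_D(x)`, `β'` the local block of `Q ⊔ P`.

PROOF of `le_P`. `M = Q ⊔ S` (a p-group: `S ≤ C(Q ⊔ P)` commutes with `Q`), `c` a block of `C(M)`, `resS C(M) β' * c = c`, `cj g c = c`, `g ∈ C(Q ⊔ P) x`, `g` commutes with `S`.
(2) `resS C(M) b * c = c` (`Lb.b_mul` for `β'`, apply `resS C(M)`, multiply by `c`), so `Bel D f M c g₀` for some `g₀` (`exists_bel`). Then `Bel D f (Q ⊔ P) β' g₀` (`Bel.down`) and `Bel D f (Q ⊔ P) β' 1` (`bel_of_lb`), so `g₀ = y * 1 * s`, `y ∈ C(Q ⊔ P)`, `s ∈ St D f` (`bel_iff`), and `Bel D f M c y` (`Bel.right` with `s⁻¹`).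
(3) `g` normalizes `M` (commutes with `S`, acts on `Q` as `x`); `fix_iff'`: `g = y₁ * s₁`, `y₁ ∈ C(M)`, `s₁ ∈ cg y (St D f)`, `s₁ = y * t * y⁻¹` with `t ∈ St D f`.
(4) `t * x⁻¹ ∈ C(Q ⊔ P) ∩ St D f` (as `x` normalizes `Q` and commutes with `P` it normalizes `C(Q ⊔ P)`), so `t * x⁻¹ ∈ C(D)` by `hreg`.
(5) let `u ∈ S`: `v = y⁻¹ * u * y ∈ D` (`M ≤ cg y D`); `s₁ = y₁⁻¹ * g` commutes with `u`, so `t` commutes with `v`, so `x` commutes with `v`: `v ∈ P`; `y` commutes with `P`, so `u = v ∈ P`.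
PROOF of `mem_CD`. `Bel D f (Q ⊔ P) β' 1`, `n` normalizes `Q ⊔ P`, `fix_iff'`: `n = y * s` with `y ∈ C(Q ⊔ P)`, `s ∈ St D f`; `s = y⁻¹ * n ∈ C(Q)`, so `s ∈ C(D)` by `hreg`.
-/

set_option autoImplicit false

namespace Pool.Agent.Lib.P0c8ca5.Kn

open MonoidAlgebra Ex Kq

variable {p : ℕ} {k : Type*} [Field k] {A : Type*} [Group A]

namespace SeAux

theorem pgrp_cg {D : Subgroup A} (h : IsPGroup p D) (g : A) : IsPGroup p (cg g D) :=
  isPGroup_cg h

/-- the conjugate of an abelian group centralizes its subgroups -/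
theorem le_CD {D M : Subgroup A} (hcom : ∀ x ∈ D, ∀ y ∈ D, x * y = y * x) {g : A}
    (hM : M ≤ cg g D) : cg g D ≤ CD M := by
  intro x hx
  rw [Subgroup.mem_centralizer_iff]
  intro y hy
  have h1 := hcom _ (mem_cg.1 hx) _ (mem_cg.1 (hM hy))
  calc y * x = g * ((g⁻¹ * y * g) * (g⁻¹ * x * g)) * g⁻¹ := by group
    _ = g * ((g⁻¹ * x * g) * (g⁻¹ * y * g)) * g⁻¹ := by rw [h1]
    _ = x * y := by group

theorem nrm_sup {g : A} {Q R : Subgroup A} (hQ : g ∈ Subgroup.normalizer (Q : Set A))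
    (hR : g ∈ Subgroup.normalizer (R : Set A)) :
    g ∈ Subgroup.normalizer ((Q ⊔ R : Subgroup A) : Set A) := by
  rw [← cg_eq_self_iff] at hQ hR ⊢
  unfold cg at hQ hR ⊢
  rw [Subgroup.map_sup, hQ, hR]

theorem nrm_of_comm {g : A} {S : Subgroup A} (h : ∀ s ∈ S, g * s = s * g) :
    g ∈ Subgroup.normalizer (S : Set A) :=
  Subgroup.centralizer_le_normalizer _
    (Subgroup.mem_centralizer_iff.2 fun s hs => (h s hs).symm)

end SeAux

open SeAux

section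
variable [Fact p.Prime] [CharP k p] [IsAlgClosed k] [Fintype A]
variable {b f i : MonoidAlgebra k A} {D : Subgroup A}

theorem Bel.down (h : Src p b D f i) {M' M : Subgroup A} (hM : M' ≤ M)
    {c' c : MonoidAlgebra k A} {g : A} (hc' : IsBlock (CD M') c') (hc : IsBlock (CD M) c)
    (hcc : resS (CD M : Set A) c' * c = c) (hg : Bel D f M c g) : Bel D f M' c' g := by
  have hMg := hg.1
  have hD := h.root.dfg.isPGroup
  have hDg : IsPGroup p (cg g D) := isPGroup_cg hD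
  have hle : cg g D ≤ CD M := le_CD h.root.com hMg
  have hle' : cg g D ≤ CD M' := hle.trans (Subgroup.centralizer_le hM)
  refine ⟨hM.trans hMg, ?_⟩
  have hi' : InvBy (CD M) (resS (CD M : Set A) c') := LocAux.resS_inv le_rfl
    (hc'.invBy.mono (Subgroup.centralizer_le hM))
  have h1 := resS_mul hDg (hi'.mono hle) (hc.invBy.mono hle)
  have h2 : resS (CD (cg g D) : Set A) (resS (CD M : Set A) c') =
      resS (CD (cg g D) : Set A) c' := resS_CD_CD hMg c'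
  rw [hcc] at h1
  have h3 : resS (CD (cg g D) : Set A) c =
      resS (CD (cg g D) : Set A) c' * resS (CD (cg g D) : Set A) c := by
    rw [← h2]
    exact h1
  rw [← hg.2]
  conv_rhs => rw [h3]
  rw [mul_assoc]

theorem le_P (h : Src p b D f i) (hE : ¬ p ∣ eN D f) {Q : Subgroup A} (hQ : Q ≤ D)
    (hreg : ∀ g ∈ St D f, (∀ u ∈ Q, g * u = u * g) → g ∈ CD D) {x : A} (hx : x ∈ St D f)
    (hxQ : x ∈ Subgroup.normalizer (Q : Set A)) {P : Subgroup A} (hP : P = D ⊓ C1 x)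
    {β' : MonoidAlgebra k A} (hβ : Lb (Q ⊔ P) i β') {S : Subgroup A} (hS : IsPGroup p S)
    (hSG : S ≤ CD (Q ⊔ P)) (hPS : P ≤ S) {c : MonoidAlgebra k A}
    (hc : IsBlock (CD (Q ⊔ S)) c) (hcc : resS (CD (Q ⊔ S) : Set A) β' * c = c) {g : A}
    (hg : g * x⁻¹ ∈ CD (Q ⊔ P)) (hgS : ∀ s ∈ S, s * g = g * s) (hgc : cj g c = c) :
    S ≤ P := by
  have hPD : P ≤ D := by rw [hP]; exact inf_le_left
  have hQP : Q ⊔ P ≤ D := sup_le hQ hPD
  have hPx : ∀ u ∈ P, u * x = x * u := by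
    intro u hu
    rw [hP] at hu
    exact Subgroup.mem_centralizer_singleton_iff.1 (Subgroup.mem_inf.1 hu).2
  -- `M = Q S` is a p-group
  have hQSc : ∀ q ∈ Q, ∀ s ∈ S, q * s = s * q := fun q hq s hs =>
    Subgroup.mem_centralizer_iff.1 (hSG hs) q ((le_sup_left : Q ≤ Q ⊔ P) hq)
  have hQp : IsPGroup p Q := h.root.dfg.isPGroup.to_le hQ
  have hMp : IsPGroup p ↥(Q ⊔ S) := by
    refine IsPGroup.to_sup_of_normal_left' hQp hS ?_
    exact fun s hs => nrm_of_comm fun q hq => (hQSc q hq s hs).symm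
  -- the pair below a conjugate by an element of `C(Q P)`
  have hbβ : resS (CD (Q ⊔ P) : Set A) b * β' = β' := Lb.b_mul h hQP hβ
  have hle1 : Q ⊔ P ≤ Q ⊔ S := sup_le_sup_left hPS Q
  have hMG : Q ⊔ S ≤ CD (Q ⊔ P) :=
    sup_le (hQ.trans (SrcAux.D_le_CQ hQP h.root.com)) hSG
  have hcb : resS (CD (Q ⊔ S) : Set A) b * c = c := by
    have hbi : InvBy (⊤ : Subgroup A) b := (mem_fixAlg.1 h.root.blk.mem).2
    have hi : InvBy (Q ⊔ S) (resS (CD (Q ⊔ P) : Set A) b) :=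
      (LocAux.resS_inv le_rfl (hbi.mono le_top)).mono hMG
    have h1 := resS_mul hMp hi (hβ.blk.invBy.mono hMG)
    have h2 : resS (CD (Q ⊔ S) : Set A) (resS (CD (Q ⊔ P) : Set A) b) =
        resS (CD (Q ⊔ S) : Set A) b := resS_CD_CD hle1 b
    rw [hbβ] at h1
    have h3 : resS (CD (Q ⊔ S) : Set A) β' =
        resS (CD (Q ⊔ S) : Set A) b * resS (CD (Q ⊔ S) : Set A) β' := by
      rw [← h2]
      exact h1
    rw [← hcc]
    conv_rhs => rw [h3]
    rw [mul_assoc]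
  obtain ⟨g₀, hg₀⟩ := exists_bel h hE hMp hc hcb
  have hbel1 : Bel D f (Q ⊔ P) β' 1 := by
    refine ⟨by rw [cg_one]; exact hQP, ?_⟩
    rw [cg_one, cj_one_left]
    exact Lb.f_mul h hQP hβ
  obtain ⟨y, hy, s, hs, hgs⟩ :=
    (bel_iff h hβ.blk hbel1).1 (Bel.down h hle1 hβ.blk hc hcc hg₀)
  have hbely : Bel D f (Q ⊔ S) c y := by
    have h1 := hg₀.right ((St D f).inv_mem hs)
    have e : g₀ * s⁻¹ = y := by rw [hgs]; group
    rwa [e] at h1
  -- `g` normalizes `Q S`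
  have hxn : x ∈ Subgroup.normalizer ((Q ⊔ P : Subgroup A) : Set A) :=
    nrm_sup hxQ (nrm_of_comm fun u hu => (hPx u hu).symm)
  have hgn : g ∈ Subgroup.normalizer ((Q ⊔ S : Subgroup A) : Set A) := by
    refine nrm_sup ?_ (nrm_of_comm fun u hu => (hgS u hu).symm)
    have h1 : g * x⁻¹ ∈ Subgroup.normalizer (Q : Set A) :=
      Subgroup.centralizer_le_normalizer _
        (Subgroup.centralizer_le (show Q ≤ Q ⊔ P from le_sup_left) hg)
    have h2 := Subgroup.mul_mem _ h1 hxQ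
    rwa [inv_mul_cancel_right] at h2
  obtain ⟨y₁, hy₁, s₁, hs₁, hgy⟩ := (fix_iff' h hc hbely hgn).1 hgc
  set t := y⁻¹ * s₁ * y with ht
  have htS : t ∈ St D f := mem_cg.1 hs₁
  have hy₁' : y₁ ∈ CD (Q ⊔ P) := Subgroup.centralizer_le hle1 hy₁
  have htx : t * x⁻¹ ∈ CD D := by
    refine hreg _ ((St D f).mul_mem htS ((St D f).inv_mem hx)) ?_
    have h1 : x * y * x⁻¹ ∈ CD (Q ⊔ P) :=
      (Subgroup.mem_normalizer_iff.1 (mem_normalizer_centralizer hxn) y).1 hy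
    have h2 : t * x⁻¹ ∈ CD (Q ⊔ P) := by
      have e : t * x⁻¹ = y⁻¹ * y₁⁻¹ * (g * x⁻¹) * (x * y * x⁻¹) := by
        rw [ht, hgy]
        group
      rw [e]
      exact (CD (Q ⊔ P)).mul_mem ((CD (Q ⊔ P)).mul_mem ((CD (Q ⊔ P)).mul_mem
        ((CD (Q ⊔ P)).inv_mem hy) ((CD (Q ⊔ P)).inv_mem hy₁')) hg) h1
    intro u hu
    exact (Subgroup.mem_centralizer_iff.1 h2 u ((le_sup_left : Q ≤ Q ⊔ P) hu)).symm
  intro u hu
  have hv : y⁻¹ * u * y ∈ D := mem_cg.1 (hbely.1 ((le_sup_right : S ≤ Q ⊔ S) hu))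
  set v := y⁻¹ * u * y with hvd
  have hs₁u : s₁ * u = u * s₁ := by
    have h1 : u * y₁ = y₁ * u :=
      Subgroup.mem_centralizer_iff.1 hy₁ u ((le_sup_right : S ≤ Q ⊔ S) hu)
    have h2 := hgS u hu
    rw [hgy] at h2
    have h3 : y₁ * (u * s₁) = y₁ * (s₁ * u) := by
      calc y₁ * (u * s₁) = (y₁ * u) * s₁ := by group
        _ = (u * y₁) * s₁ := by rw [h1]
        _ = u * (y₁ * s₁) := by group
        _ = y₁ * s₁ * u := h2
        _ = y₁ * (s₁ * u) := by group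
    exact (mul_left_cancel h3).symm
  have htv : t * v = v * t := by
    calc t * v = y⁻¹ * (s₁ * u) * y := by rw [ht, hvd]; group
      _ = y⁻¹ * (u * s₁) * y := by rw [hs₁u]
      _ = v * t := by rw [ht, hvd]; group
  have hxv : v * x = x * v := by
    have h1 : v * (t * x⁻¹) = (t * x⁻¹) * v := Subgroup.mem_centralizer_iff.1 htx v hv
    have h2 : t * (v * x⁻¹) = t * (x⁻¹ * v) := by
      calc t * (v * x⁻¹) = (t * v) * x⁻¹ := by group
        _ = (v * t) * x⁻¹ := by rw [htv]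
        _ = v * (t * x⁻¹) := by group
        _ = (t * x⁻¹) * v := h1
        _ = t * (x⁻¹ * v) := by group
    have h3 := mul_left_cancel h2
    calc v * x = x * (x⁻¹ * v) * x := by group
      _ = x * (v * x⁻¹) * x := by rw [h3]
      _ = x * v := by group
  have hvP : v ∈ P := by
    rw [hP]
    exact Subgroup.mem_inf.2 ⟨hv, Subgroup.mem_centralizer_singleton_iff.2 hxv⟩
  have h1 : v * y = y * v :=
    Subgroup.mem_centralizer_iff.1 hy v ((le_sup_right : P ≤ Q ⊔ P) hvP)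
  have huv : u = v := by
    calc u = (y * v) * y⁻¹ := by rw [hvd]; group
      _ = (v * y) * y⁻¹ := by rw [h1]
      _ = v := by group
  rw [huv]
  exact hvP

theorem mem_CD (h : Src p b D f i) {Q : Subgroup A} (hQ : Q ≤ D)
    (hreg : ∀ g ∈ St D f, (∀ u ∈ Q, g * u = u * g) → g ∈ CD D) {P : Subgroup A} (hP : P ≤ D)
    {β' : MonoidAlgebra k A} (hβ : Lb (Q ⊔ P) i β') {n : A} (hn : n ∈ CD Q)
    (hnP : n ∈ Subgroup.normalizer (P : Set A)) (hnβ : cj n β' = β') : n ∈ CD (Q ⊔ P) := by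
  have hQP : Q ⊔ P ≤ D := sup_le hQ hP
  have hbel : Bel D f (Q ⊔ P) β' 1 := by
    refine ⟨by rw [cg_one]; exact hQP, ?_⟩
    rw [cg_one, cj_one_left]
    exact Lb.f_mul h hQP hβ
  have hnQ : n ∈ Subgroup.normalizer (Q : Set A) := Subgroup.centralizer_le_normalizer _ hn
  have hnn : n ∈ Subgroup.normalizer ((Q ⊔ P : Subgroup A) : Set A) := by
    rw [← cg_eq_self_iff] at hnQ hnP ⊢
    unfold cg at hnQ hnP ⊢
    rw [Subgroup.map_sup, hnQ, hnP]
  obtain ⟨y, hy, s, hs, hns⟩ := (fix_iff' h hβ.blk hbel hnn).1 hnβ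
  rw [cg_one] at hs
  have hsQ : s ∈ CD Q := by
    have h1 := (CD Q).mul_mem ((CD Q).inv_mem (Subgroup.centralizer_le (show Q ≤ Q ⊔ P from le_sup_left) hy)) hn
    rwa [hns, inv_mul_cancel_left] at h1
  have hsD : s ∈ CD D := hreg s hs fun u hu => (Subgroup.mem_centralizer_iff.1 hsQ u hu).symm
  rw [hns]
  exact (CD (Q ⊔ P)).mul_mem hy (Subgroup.centralizer_le hQP hsD)

end

end Pool.Agent.Lib.P0c8ca5.Kn
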