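import Mathlib
import Pool.Agent.Lib.P0c8ca5Kn.Sa
import Pool.Agent.Lib.P0c8ca5Kn.Sc
import Pool.Agent.Lib.P0c8ca5Kn.Sd
import Pool.Agent.Lib.P0c8ca5Kn.Se
import Pool.Agent.Lib.P0c8ca5Kq.Cf

/-!
# Sf: the symbol of a local block and of the local block of `Q ⊔ C_D(x)`

`Q ≤ D` with `St D f ∩ C(Q) ≤ C(D)`, `x, y ∈ St D f` normalize `Q` and commute modulo `C(D)`, `P = C_D(x)`, `β` and `β'` the
local blocks of `Q` and `Q ⊔ P`. The map `a ↦ β' * resS C(P) a` from `Fs p C(Q) C(Q) β x` to `Fs p C(Q ⊔ P) C(Q ⊔ P) β' x` is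
onto (`exists_lift`: a right inverse is `a' ↦ β * Tl a'`) and commutes with the conjugation by `y`, so the symbols are equal.
-/

set_option autoImplicit false

namespace Pool.Agent.Lib.P0c8ca5.Kn

open MonoidAlgebra Ps Bq Zz Gg Ex Kq

variable {p : ℕ} {k : Type*} [Field k] {A : Type*} [Group A]

theorem CD_sup (Q P : Subgroup A) : CD (Q ⊔ P) = CD Q ⊓ CD P := by
  apply le_antisymm
  · have h1 : Q ≤ Q ⊔ P := le_sup_left
    have h2 : P ≤ Q ⊔ P := le_sup_right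
    exact le_inf (Subgroup.centralizer_le h1) (Subgroup.centralizer_le h2)
  · intro z hz
    obtain ⟨h1, h2⟩ := Subgroup.mem_inf.1 hz
    rw [Subgroup.mem_centralizer_iff] at h1 h2 ⊢
    have h3 : Q ⊔ P ≤ C1 z := by
      refine sup_le (fun u hu => ?_) (fun u hu => ?_)
      · rw [Subgroup.mem_centralizer_singleton_iff]
        exact h1 u hu
      · rw [Subgroup.mem_centralizer_singleton_iff]
        exact h2 u hu
    intro u hu
    exact Subgroup.mem_centralizer_singleton_iff.1 (h3 hu)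

section
variable [Fact p.Prime] [CharP k p] [IsAlgClosed k] [Fintype A]
variable {b f i : MonoidAlgebra k A} {D : Subgroup A}

/-- the local blocks are nested -/
theorem res_mul (h : Src p b D f i) {Q R : Subgroup A} (hQR : Q ≤ R) (hR : R ≤ D)
    {β β' : MonoidAlgebra k A} (hβ : Lb Q i β) (hβ' : Lb R i β') :
    resS (CD R : Set A) β * β' = β' := by
  have hp := h.root.dfg.isPGroup
  have hDQ : D ≤ CD Q := SrcAux.D_le_CQ (hQR.trans hR) h.root.com
  have hDR : D ≤ CD R := SrcAux.D_le_CQ hR h.root.com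
  have hRQ : CD R ≤ CD Q := Subgroup.centralizer_le hQR
  have hri : InvBy (CD R) (resS (CD R : Set A) β) :=
    LocAux.resS_inv le_rfl (hβ.blk.invBy.mono hRQ)
  have hrs : SuppIn (CD R) (resS (CD R : Set A) β) := by
    intro z hz
    by_contra h1
    exact hz (coeff_resS_of_notMem _ h1)
  have hβR : InvBy R β := hβ.blk.invBy.mono (hR.trans hDQ)
  have hrr : resS (CD R : Set A) β * resS (CD R : Set A) β = resS (CD R : Set A) β := by
    rw [← resS_mul (hp.to_le hR) hβR hβR, hβ.blk.idem]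
  rcases hβ'.blk.mul_eq (mem_fixAlg.2 ⟨hrs, hri⟩) hrr with h0 | h0
  · exfalso
    apply h.root.fblk.ne_zero
    have h1 := resS_CD_mul (le_refl D) hp (hri.mono hDR) (hβ'.blk.invBy.mono hDR)
    rw [h0, resS_zero, resS_CD_CD hR] at h1
    calc f = resS (CD D : Set A) β * (resS (CD D : Set A) β' * f) := by
          rw [Lb.f_mul h hR hβ', Lb.f_mul h (hQR.trans hR) hβ]
      _ = 0 := by rw [← mul_assoc, ← h1, zero_mul]
  · exact h0

theorem fix_lb (h : Src p b D f i) {Q : Subgroup A} (hQ : Q ≤ D) {β : MonoidAlgebra k A}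
    (hβ : Lb Q i β) {x : A} (hx : x ∈ St D f) (hxQ : x ∈ Subgroup.normalizer (Q : Set A)) :
    cj x β = β := by
  have h1 : cg x Q = Q := cg_eq_self_iff.2 hxQ
  exact Lb.cj_eq h hQ hx hβ (by rw [h1]; exact hβ)

omit [Fact p.Prime] [CharP k p] [IsAlgClosed k] [Fintype A] in
/-- `y` normalizes `C_D(x)` -/
theorem nrm_P {x y : A} (hx : x ∈ St D f) (hy : y ∈ St D f)
    (hyx : y * x * y⁻¹ * x⁻¹ ∈ CD D) {P : Subgroup A} (hP : P = D ⊓ C1 x) :
    y ∈ Subgroup.normalizer (P : Set A) := by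
  subst hP
  have hyD := Subgroup.mem_normalizer_iff.1 hy.1
  rw [Subgroup.mem_centralizer_iff] at hyx
  obtain ⟨z, hz⟩ : ∃ z, z = y * x * y⁻¹ * x⁻¹ := ⟨_, rfl⟩
  rw [← hz] at hyx
  have e1 : x = z⁻¹ * (y * x * y⁻¹) := by rw [hz]; group
  have e2 : y * x = z * x * y := by rw [hz]; group
  rw [Subgroup.mem_normalizer_iff]
  intro u
  rw [Subgroup.mem_inf, Subgroup.mem_inf, Subgroup.mem_centralizer_singleton_iff,
    Subgroup.mem_centralizer_singleton_iff]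
  constructor
  · rintro ⟨hu, hux⟩
    have hw := (hyD u).1 hu
    refine ⟨hw, ?_⟩
    have h1 : Commute (y * u * y⁻¹) z⁻¹ := Commute.inv_right (hyx _ hw)
    calc y * u * y⁻¹ * x = (y * u * y⁻¹ * z⁻¹) * (y * x * y⁻¹) := by
          rw [mul_assoc (y * u * y⁻¹) z⁻¹, ← e1]
      _ = (z⁻¹ * (y * u * y⁻¹)) * (y * x * y⁻¹) := by rw [h1.eq]
      _ = z⁻¹ * (y * (u * x) * y⁻¹) := by group
      _ = z⁻¹ * (y * (x * u) * y⁻¹) := by rw [hux]
      _ = z⁻¹ * (y * x * y⁻¹) * (y * u * y⁻¹) := by group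
      _ = x * (y * u * y⁻¹) := by rw [← e1]
  · rintro ⟨hw, hwx⟩
    have hu := (hyD u).2 hw
    refine ⟨hu, ?_⟩
    apply mul_left_cancel (a := y)
    have h1 := hyx _ hw
    calc y * (u * x) = (y * u * y⁻¹) * (y * x) := by group
      _ = (y * u * y⁻¹ * z) * x * y := by rw [e2]; simp only [mul_assoc]
      _ = z * ((y * u * y⁻¹) * x) * y := by rw [h1]; simp only [mul_assoc]
      _ = z * (x * (y * u * y⁻¹)) * y := by rw [hwx]
      _ = (z * x * y) * u := by group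
      _ = y * (x * u) := by rw [← e2, mul_assoc]

/-- every vector of the smaller coset is the restriction of a vector of the larger coset -/
theorem exists_lift (h : Src p b D f i) (hE : ¬ p ∣ eN D f) {Q : Subgroup A} (hQ : Q ≤ D)
    (hreg : ∀ g ∈ St D f, (∀ u ∈ Q, g * u = u * g) → g ∈ CD D) {x : A} (hx : x ∈ St D f)
    (hxQ : x ∈ Subgroup.normalizer (Q : Set A)) {P : Subgroup A} (hP : P = D ⊓ C1 x)
    {β β' : MonoidAlgebra k A} (hβ : Lb Q i β) (hβ' : Lb (Q ⊔ P) i β')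
    {a' : MonoidAlgebra k A} (ha' : a' ∈ Fs p (CD (Q ⊔ P)) (CD (Q ⊔ P)) β' x) :
    ∃ a ∈ Fs p (CD Q) (CD Q) β x, β' * resS (CD P : Set A) a = a' := by
  have hp := h.root.dfg.isPGroup
  have hPD : P ≤ D := by rw [hP]; exact inf_le_left
  have hQP : Q ⊔ P ≤ D := sup_le hQ hPD
  have hQQP : Q ≤ Q ⊔ P := le_sup_left
  have hDQP : D ≤ CD (Q ⊔ P) := SrcAux.D_le_CQ hQP h.root.com
  have hPx : ∀ u ∈ P, x * u = u * x := by
    intro u hu
    rw [hP] at hu
    exact (Subgroup.mem_centralizer_singleton_iff.1 (Subgroup.mem_inf.1 hu).2).symm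
  have hPp : IsPGroup p P := hp.to_le hPD
  have hxP : x ∈ Subgroup.normalizer (P : Set A) := SeAux.nrm_of_comm hPx
  have hxQP : x ∈ Subgroup.normalizer ((Q ⊔ P : Subgroup A) : Set A) := SeAux.nrm_sup hxQ hxP
  have hxC : x ∈ Subgroup.normalizer (CD Q : Set A) := mem_normalizer_centralizer hxQ
  have hxG : x ∈ Subgroup.normalizer (CD (Q ⊔ P) : Set A) := mem_normalizer_centralizer hxQP
  have hGC : CD (Q ⊔ P) ≤ CD Q := Subgroup.centralizer_le hQQP
  have hpm : x ^ eN D f ∈ CD D := CfAux.pow_eN hx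
  have hprG : Prm p (CD (Q ⊔ P)) x := ⟨eN D f, hE, Subgroup.centralizer_le hQP hpm⟩
  have hprC : Prm p (CD Q) x := ⟨eN D f, hE, Subgroup.centralizer_le hQ hpm⟩
  obtain ⟨g1, g2, g3, g4⟩ := mem_Fs.1 ha'
  have ha1 : a' ∈ Fs p (CD (Q ⊔ P)) (CD (Q ⊔ P)) 1 x := mem_Fs.2 ⟨g1, g2, g3, one_mul a'⟩
  have hTl := Tl_mem hGC hxG hxC hprG ha1
  have haG : InvBy (CD (Q ⊔ P)) a' := by
    intro y hy
    apply g2 y hy
    have e : y * x * y⁻¹ * x⁻¹ = y * (x * y⁻¹ * x⁻¹) := by group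
    rw [e]
    exact Subgroup.mul_mem _ hy (GqAux.nm_mem hxG (Subgroup.inv_mem _ hy))
  have hTC : InvBy (CD Q) (Tl (CD (Q ⊔ P)) (CD Q) a') := by
    obtain ⟨-, t2, -, -⟩ := mem_Fs.1 hTl
    intro y hy
    apply t2 y hy
    have e : y * x * y⁻¹ * x⁻¹ = y * (x * y⁻¹ * x⁻¹) := by group
    rw [e]
    exact Subgroup.mul_mem _ hy (GqAux.nm_mem hxC (Subgroup.inv_mem _ hy))
  refine ⟨β * Tl (CD (Q ⊔ P)) (CD Q) a', mul_mem_Fs hxC hprC hβ.blk.suppIn hβ.blk.invBy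
    hβ.blk.idem (fix_lb h hQ hβ hx hxQ) hTl, ?_⟩
  have hPC : P ≤ CD Q := hPD.trans (SrcAux.D_le_CQ hQ h.root.com)
  have hr : resS (CD P : Set A) β = resS (CD (Q ⊔ P) : Set A) β := by
    ext z
    by_cases hz : z ∈ (CD (Q ⊔ P) : Set A)
    · have hz' : z ∈ (CD P : Set A) := by
        have h1 : z ∈ CD (Q ⊔ P) := hz
        rw [CD_sup] at h1
        exact (Subgroup.mem_inf.1 h1).2
      rw [coeff_resS_of_mem _ hz, coeff_resS_of_mem _ hz']
    · rw [coeff_resS_of_notMem _ hz]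
      by_cases hz' : z ∈ (CD P : Set A)
      · rw [coeff_resS_of_mem _ hz']
        by_contra h1
        apply hz
        have h2 : z ∈ CD Q ⊓ CD P := ⟨hβ.blk.suppIn z h1, hz'⟩
        rw [← CD_sup] at h2
        exact h2
      · rw [coeff_resS_of_notMem _ hz']
  have hβC : β' * resS (CD P : Set A) β = β' := by
    rw [hr, commute_of hβ'.blk.suppIn
      (LocAux.resS_inv le_rfl (hβ.blk.invBy.mono hGC)), res_mul h hQQP hQP hβ hβ']
  rw [resS_mul hPp (hβ.blk.invBy.mono hPC) (hTC.mono hPC), ← mul_assoc, hβC]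
  refine retr hPp (hPD.trans hDQP) (CD_sup Q P) hPx hxG hβ'.blk ha' ?_ ?_
  · intro g hgx hag S hS hSG hPS hSg
    have hgN : g ∈ Subgroup.normalizer (CD (Q ⊔ P) : Set A) := by
      have e : g = (g * x⁻¹) * x := by group
      rw [e]
      exact Subgroup.mul_mem _ (Subgroup.le_normalizer hgx) hxG
    obtain ⟨c, hc1, hc2, hc3⟩ := exists_fix hS hSG hβ'.blk.mem hβ'.blk.idem haG g4 hgN hSg hag
    have hle : Q ⊔ P ≤ Q ⊔ S := sup_le_sup_left hPS Q
    have hCS : CD (Q ⊔ P) ⊓ CD S = CD (Q ⊔ S) := by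
      rw [CD_sup, CD_sup, inf_assoc, inf_eq_right.2 (Subgroup.centralizer_le hPS)]
    have hrS : resS (CD (Q ⊔ S) : Set A) β' = resS (CD S : Set A) β' := by
      ext z
      by_cases hz : z ∈ (CD (Q ⊔ S) : Set A)
      · have hz' : z ∈ (CD S : Set A) := by
          have h1 : z ∈ CD (Q ⊔ S) := hz
          rw [CD_sup] at h1
          exact (Subgroup.mem_inf.1 h1).2
        rw [coeff_resS_of_mem _ hz, coeff_resS_of_mem _ hz']
      · rw [coeff_resS_of_notMem _ hz]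
        by_cases hz' : z ∈ (CD S : Set A)
        · rw [coeff_resS_of_mem _ hz']
          by_contra h1
          apply hz
          have h2 : z ∈ CD (Q ⊔ P) ⊓ CD S := ⟨hβ'.blk.suppIn z fun h3 => h1 h3.symm, hz'⟩
          rw [hCS] at h2
          exact h2
        · rw [coeff_resS_of_notMem _ hz']
    rw [hCS] at hc1
    rw [← hrS] at hc2
    exact le_P h hE hQ hreg hx hxQ hP hβ' hS hSG hPS hc1 hc2 hgx hSg hc3
  · intro n hn hnP hnβ
    exact mem_CD h hQ hreg hPD hβ' hn hnP hnβ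

theorem om_step (h : Src p b D f i) (hE : ¬ p ∣ eN D f) {Q : Subgroup A} (hQ : Q ≤ D)
    (hreg : ∀ g ∈ St D f, (∀ u ∈ Q, g * u = u * g) → g ∈ CD D) {x y : A} (hx : x ∈ St D f)
    (hxQ : x ∈ Subgroup.normalizer (Q : Set A)) (hy : y ∈ St D f)
    (hyQ : y ∈ Subgroup.normalizer (Q : Set A)) (hyx : y * x * y⁻¹ * x⁻¹ ∈ CD D)
    {P : Subgroup A} (hP : P = D ⊓ C1 x) {β β' : MonoidAlgebra k A} (hβ : Lb Q i β)
    (hβ' : Lb (Q ⊔ P) i β') (hl : Nat.card (IrX (CD Q) β) = 1)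
    (hl' : Nat.card (IrX (CD (Q ⊔ P)) β') = 1) {n n' : ℕ} {ρ : Rp k (CD Q) n}
    {ρ' : Rp k (CD (Q ⊔ P)) n'} (hρ : Irr' ρ) (hρβ : act ρ β = 1) (hρ' : Irr' ρ')
    (hρβ' : act ρ' β' = 1) : om (CD Q) ρ x y = om (CD (Q ⊔ P)) ρ' x y := by
  have hp := h.root.dfg.isPGroup
  have hPD : P ≤ D := by rw [hP]; exact inf_le_left
  have hQP : Q ⊔ P ≤ D := sup_le hQ hPD
  have hPx : ∀ u ∈ P, x * u = u * x := by
    intro u hu
    rw [hP] at hu
    exact (Subgroup.mem_centralizer_singleton_iff.1 (Subgroup.mem_inf.1 hu).2).symm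
  have hxP : x ∈ Subgroup.normalizer (P : Set A) := SeAux.nrm_of_comm hPx
  have hyP : y ∈ Subgroup.normalizer (P : Set A) := nrm_P hx hy hyx hP
  have hxQP : x ∈ Subgroup.normalizer ((Q ⊔ P : Subgroup A) : Set A) := SeAux.nrm_sup hxQ hxP
  have hyQP : y ∈ Subgroup.normalizer ((Q ⊔ P : Subgroup A) : Set A) := SeAux.nrm_sup hyQ hyP
  have hxC : x ∈ Subgroup.normalizer (CD Q : Set A) := mem_normalizer_centralizer hxQ
  have hxG : x ∈ Subgroup.normalizer (CD (Q ⊔ P) : Set A) := mem_normalizer_centralizer hxQP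
  have hyC : y ∈ Subgroup.normalizer (CD Q : Set A) := mem_normalizer_centralizer hyQ
  have hyG : y ∈ Subgroup.normalizer (CD (Q ⊔ P) : Set A) := mem_normalizer_centralizer hyQP
  have hpm : x ^ eN D f ∈ CD D := CfAux.pow_eN hx
  have hprG : Prm p (CD (Q ⊔ P)) x := ⟨eN D f, hE, Subgroup.centralizer_le hQP hpm⟩
  have hprC : Prm p (CD Q) x := ⟨eN D f, hE, Subgroup.centralizer_le hQ hpm⟩
  have hxβ := fix_lb h hQ hβ hx hxQ
  have hyβ := fix_lb h hQ hβ hy hyQ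
  have hxβ' := fix_lb h hQP hβ' hx hxQP
  have hyβ' := fix_lb h hQP hβ' hy hyQP
  obtain ⟨a', ha', ha0⟩ := exists_Fs hxG hprG hβ'.blk.suppIn hxβ' hl' hρ' hρβ'
  obtain ⟨a, ha, haa⟩ := exists_lift h hE hQ hreg hx hxQ hP hβ hβ' ha'
  obtain ⟨h1, h2⟩ := cj_Fs hxC hprC hβ.blk.suppIn hβ.blk.invBy hβ.blk.idem hxβ hl hρ hρβ hyC hyβ
    (Subgroup.centralizer_le hQ hyx)
  obtain ⟨h3, h4⟩ := cj_Fs hxG hprG hβ'.blk.suppIn hβ'.blk.invBy hβ'.blk.idem hxβ' hl' hρ' hρβ'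
    hyG hyβ' (Subgroup.centralizer_le hQP hyx)
  have h5 : cj y (resS (CD P : Set A) a) = resS (CD P : Set A) (cj y a) := by
    rw [← FuAux.resS_cg, FuAux.cg_CD, cg_eq_self_iff.2 hyP]
  have h6 : cj y a' = (om (CD Q) ρ x y)⁻¹ • a' := by
    rw [← haa, cj_mul, hyβ', h5, h2 a ha, resS_smul, mul_smul_comm]
  rw [h4 a' ha'] at h6
  have h7 : ((om (CD (Q ⊔ P)) ρ' x y)⁻¹ - (om (CD Q) ρ x y)⁻¹) • a' = 0 := by
    rw [sub_smul, h6, sub_self]
  have h8 := sub_eq_zero.1 ((smul_eq_zero.1 h7).resolve_right ha0)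
  exact (inv_injective h8).symm

end

end Pool.Agent.Lib.P0c8ca5.Kn
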